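import Pool.Agent.Q258.BD.Conv

/-!
# Job R3: exactly orthogonal test functions for real dilations
-/

set_option autoImplicit false

namespace Pool.Agent.Q258.BD

open Complex MeasureTheory Filter Topology Set Pool.Agent.Q286.BD

theorem eval_sum (p : Polynomial ℝ) (x : ℝ) :
    ((p.eval x : ℝ) : ℂ) = ∑ j ∈ p.support, (p.coeff j : ℂ) * (x : ℂ) ^ j := by
  rw [Polynomial.eval_eq_sum, Polynomial.sum_def]
  push_cast
  rfl

/-- `int_1^oo y^(-rho-1) (log y)^j` converges -/
theorem mono_int (ρ : ℂ) (hρ : ρ.re = 1 / 2) (j : ℕ) :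
    IntegrableOn (fun y : ℝ => (y : ℂ) ^ (-ρ - 1) * ((Real.log y : ℝ) : ℂ) ^ j) (Ioi 1) := by
  obtain ⟨C, hC, h⟩ := pow_le_exp j
  have h1 : IntegrableOn (fun y : ℝ => C * y ^ (-(5 / 4) : ℝ)) (Ioi 1) :=
    (integrableOn_Ioi_rpow_of_lt (by norm_num) one_pos).const_mul C
  refine h1.mono' ?_ ?_
  · refine Measurable.aestronglyMeasurable ?_
    exact ((measurable_ofReal.pow_const _)).mul
      ((measurable_ofReal.comp Real.measurable_log).pow_const _)
  · filter_upwards [ae_restrict_mem measurableSet_Ioi] with y hy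
    have hy1 : (1 : ℝ) < y := hy
    have hy0 : 0 < y := by linarith
    have hl := Real.log_pos hy1
    rw [norm_mul, norm_pow, Complex.norm_cpow_eq_rpow_re_of_pos hy0, Complex.norm_real,
      Real.norm_eq_abs, abs_of_pos hl]
    have e1 : (-ρ - 1).re = -(3 / 2) := by simp [hρ]; norm_num
    rw [e1]
    have h2 := h _ hl.le
    have h3 : Real.exp (Real.log y / 4) = y ^ (1 / 4 : ℝ) := by
      rw [Real.rpow_def_of_pos hy0]
      congr 1
      ring
    rw [h3] at h2
    have h4 : 0 < y ^ (-(3 / 2) : ℝ) := Real.rpow_pos_of_pos hy0 _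
    calc y ^ (-(3 / 2) : ℝ) * Real.log y ^ j ≤ y ^ (-(3 / 2) : ℝ) * (C * y ^ (1 / 4 : ℝ)) := by
          gcongr
      _ = C * (y ^ (-(3 / 2) : ℝ) * y ^ (1 / 4 : ℝ)) := by ring
      _ = C * y ^ (-(5 / 4) : ℝ) := by
          rw [← Real.rpow_add hy0]
          norm_num

theorem mono_zero (ρ : ℂ) (hρ : ρ.re = 1 / 2) :
    ∫ y in Ioi (1 : ℝ), (y : ℂ) ^ (-ρ - 1) * ((Real.log y : ℝ) : ℂ) ^ 0 = 1 / ρ := by
  simp only [pow_zero, mul_one]
  have h := integral_Ioi_cpow_of_lt (a := -ρ - 1) (by simp [hρ]; norm_num) one_pos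
  rw [h]
  have h0 : ρ ≠ 0 := by
    intro h0
    rw [h0] at hρ
    norm_num at hρ
  simp

/-- the kernel constants -/
noncomputable def kap (ρ : ℂ) (j : ℕ) : ℂ := (-1) ^ j * (j.factorial : ℂ) / (1 - ρ) ^ (j + 1)

/-- the constant on the unit interval -/
noncomputable def kapL (ρ : ℂ) (p : Polynomial ℝ) (L : ℝ) : ℂ :=
  ∑ j ∈ p.support, (p.coeff j : ℂ) * ((L : ℂ)⁻¹) ^ j * kap ρ j

/-- the orthogonal function before the correction -/
noncomputable def kk (ρ : ℂ) (p : Polynomial ℝ) (L y : ℝ) : ℂ :=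
  if y < 1 then 3 * kapL ρ p L * y else (y : ℂ) ^ (-ρ - 1) * ((p.eval (Real.log y / L) : ℝ) : ℂ)

theorem cpow_meas (a : ℂ) : Measurable fun y : ℝ => (y : ℂ) ^ a := measurable_ofReal.pow_const _

theorem ev_meas (p : Polynomial ℝ) (L : ℝ) :
    Measurable fun y : ℝ => ((p.eval (Real.log y / L) : ℝ) : ℂ) := by
  refine measurable_ofReal.comp ?_
  exact p.continuous.measurable.comp (Real.measurable_log.div_const L)

theorem kk_meas (ρ : ℂ) (p : Polynomial ℝ) (L : ℝ) : Measurable (kk ρ p L) := by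
  unfold kk
  refine Measurable.ite (measurableSet_lt measurable_id measurable_const) ?_ ?_
  · exact (measurable_ofReal.const_mul _)
  · exact (cpow_meas _).mul (ev_meas p L)

theorem km_meas (g : ℝ) (p : Polynomial ℝ) (L : ℝ) : Measurable (Km g p L) := by
  unfold Km
  refine Measurable.ite ?_ ?_ measurable_const
  · exact (measurableSet_le measurable_const measurable_id).inter
      (measurableSet_le measurable_id measurable_const)
  · exact (cpow_meas _).mul (ev_meas p L)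

theorem kk_large (ρ : ℂ) (p : Polynomial ℝ) (L y : ℝ) (hy : 1 ≤ y) :
    kk ρ p L y = ∑ j ∈ p.support, (p.coeff j : ℂ) * ((L : ℂ)⁻¹) ^ j *
      ((y : ℂ) ^ (-ρ - 1) * ((Real.log y : ℝ) : ℂ) ^ j) := by
  rw [kk, if_neg (not_lt.mpr hy), eval_sum, Finset.mul_sum]
  refine Finset.sum_congr rfl fun j _ => ?_
  push_cast
  rw [div_pow, inv_pow]
  ring

theorem kk_small_int (ρ : ℂ) (p : Polynomial ℝ) (L : ℝ) (c : ℝ → ℝ) (hc : Measurable c)
    (hb : ∀ y, |c y| ≤ 1) :
    IntegrableOn (fun y : ℝ => (c y : ℂ) * kk ρ p L y) (Ioo 0 1) := by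
  have h1 : IntegrableOn (fun _ : ℝ => ‖3 * kapL ρ p L‖) (Ioo (0 : ℝ) 1) := by
    rw [integrableOn_const_iff]
    right
    simp
  refine h1.mono' ?_ ?_
  · exact ((measurable_ofReal.comp hc).mul (kk_meas ρ p L)).aestronglyMeasurable
  · filter_upwards [ae_restrict_mem measurableSet_Ioo] with y hy
    rw [norm_mul, kk, if_pos hy.2, norm_mul (3 * kapL ρ p L), Complex.norm_real, Complex.norm_real,
      Real.norm_eq_abs, Real.norm_eq_abs, abs_of_pos hy.1]
    have h2 := hb y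
    have h3 := hy.2.le
    calc |c y| * (‖3 * kapL ρ p L‖ * y) ≤ 1 * (‖3 * kapL ρ p L‖ * 1) :=
          mul_le_mul h2 (mul_le_mul_of_nonneg_left h3 (norm_nonneg _))
            (mul_nonneg (norm_nonneg _) hy.1.le) zero_le_one
      _ = _ := by ring

theorem kk_int (ρ : ℂ) (hρ : ρ.re = 1 / 2) (p : Polynomial ℝ) (L : ℝ) :
    IntegrableOn (kk ρ p L) (Ioi 0) := by
  have e : Ioi (0 : ℝ) = Ioc 0 1 ∪ Ioi 1 := (Ioc_union_Ioi_eq_Ioi zero_le_one).symm
  rw [e]
  refine IntegrableOn.union ?_ ?_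
  · rw [integrableOn_Ioc_iff_integrableOn_Ioo]
    have := kk_small_int ρ p L (fun _ => 1) measurable_const (by simp)
    simpa using this
  · have h1 : IntegrableOn (fun y : ℝ => ∑ j ∈ p.support, (p.coeff j : ℂ) * ((L : ℂ)⁻¹) ^ j *
        ((y : ℂ) ^ (-ρ - 1) * ((Real.log y : ℝ) : ℂ) ^ j)) (Ioi 1) :=
      integrable_finsetSum _ fun j _ => (mono_int ρ hρ j).const_mul _
    refine h1.congr_fun (fun y hy => ?_) measurableSet_Ioi
    exact (kk_large ρ p L y (le_of_lt hy)).symm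

theorem split_int {f : ℝ → ℂ} (h : IntegrableOn f (Ioi 0)) :
    ∫ y in Ioi (0 : ℝ), f y = (∫ y in Ioo (0 : ℝ) 1, f y) + ∫ y in Ioi (1 : ℝ), f y := by
  have e : Ioi (0 : ℝ) = Ioc 0 1 ∪ Ioi 1 := (Ioc_union_Ioi_eq_Ioi zero_le_one).symm
  rw [e, setIntegral_union Ioc_disjoint_Ioi_same measurableSet_Ioi, integral_Ioc_eq_integral_Ioo]
  · exact h.mono_set Ioc_subset_Ioi_self
  · exact h.mono_set (Ioi_subset_Ioi zero_le_one)

theorem bd_int {f : ℝ → ℂ} (h : IntegrableOn f (Ioi 0)) (θ : ℝ) :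
    IntegrableOn (fun y : ℝ => ((Int.fract (θ * y) : ℝ) : ℂ) * f y) (Ioi 0) := by
  refine h.bdd_mul (c := 1) ?_ ?_
  · exact (measurable_ofReal.comp (measurable_fract.comp (measurable_const_mul θ))).aestronglyMeasurable
  · refine Eventually.of_forall fun y => ?_
    rw [Complex.norm_real, Real.norm_eq_abs, abs_of_nonneg (Int.fract_nonneg _)]
    exact (Int.fract_lt_one _).le

/-- exact orthogonality before the correction -/
theorem kk_orth (h1 : S_orthR) (ρ : ℂ) (hρ : ρ.re = 1 / 2) (p : Polynomial ℝ) (hp : p.degree < mz ρ)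
    (L θ : ℝ) (h0 : 0 < θ) (hθ : θ ≤ 1) :
    ∫ y in Ioi (0 : ℝ), ((Int.fract (θ * y) : ℝ) : ℂ) * kk ρ p L y = 0 := by
  rw [split_int (bd_int (kk_int ρ hρ p L) θ)]
  have ho : ∀ j ∈ p.support, IntegrableOn (fun y : ℝ => ((Int.fract (θ * y) : ℝ) : ℂ) *
      (y : ℂ) ^ (-ρ - 1) * ((Real.log y : ℝ) : ℂ) ^ j) (Ioi 1) ∧
      ∫ y in Ioi (1 : ℝ), ((Int.fract (θ * y) : ℝ) : ℂ) * (y : ℂ) ^ (-ρ - 1) *
        ((Real.log y : ℝ) : ℂ) ^ j = -((θ : ℂ) * kap ρ j) := by
    intro j hj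
    refine h1 ρ (by rw [hρ]; norm_num) (by rw [hρ]; norm_num) j θ ?_ h0 hθ
    have := (Polynomial.le_degree_of_mem_supp j hj).trans_lt hp
    exact_mod_cast this
  have e1 : ∫ y in Ioo (0 : ℝ) 1, ((Int.fract (θ * y) : ℝ) : ℂ) * kk ρ p L y = θ * kapL ρ p L := by
    have e2 : ∀ y ∈ Ioo (0 : ℝ) 1, ((Int.fract (θ * y) : ℝ) : ℂ) * kk ρ p L y =
        ((3 * y ^ 2 : ℝ) : ℂ) * (θ * kapL ρ p L) := by
      intro y hy
      have hfr : Int.fract (θ * y) = θ * y := by
        rw [Int.fract_eq_self]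
        constructor
        · have := hy.1
          positivity
        · nlinarith [hy.1, hy.2]
      rw [hfr, kk, if_pos hy.2]
      push_cast
      ring
    rw [setIntegral_congr_fun measurableSet_Ioo e2, integral_mul_const]
    have e3 : ∫ y in Ioo (0 : ℝ) 1, ((3 * y ^ 2 : ℝ) : ℂ) = 1 := by
      have e4 : ∫ y in Ioo (0 : ℝ) 1, ((3 * y ^ 2 : ℝ) : ℂ) =
          ((∫ y in Ioo (0 : ℝ) 1, (3 * y ^ 2 : ℝ) : ℝ) : ℂ) := integral_ofReal
      rw [e4, ← integral_Ioc_eq_integral_Ioo, ← intervalIntegral.integral_of_le zero_le_one,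
        intervalIntegral.integral_const_mul, integral_pow]
      norm_num
    rw [e3, one_mul]
  have e5 : ∫ y in Ioi (1 : ℝ), ((Int.fract (θ * y) : ℝ) : ℂ) * kk ρ p L y =
      -(θ * kapL ρ p L) := by
    have e6 : ∀ y ∈ Ioi (1 : ℝ), ((Int.fract (θ * y) : ℝ) : ℂ) * kk ρ p L y =
        ∑ j ∈ p.support, (p.coeff j : ℂ) * ((L : ℂ)⁻¹) ^ j *
          (((Int.fract (θ * y) : ℝ) : ℂ) * (y : ℂ) ^ (-ρ - 1) * ((Real.log y : ℝ) : ℂ) ^ j) := by
      intro y hy
      rw [kk_large ρ p L y (le_of_lt hy), Finset.mul_sum]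
      exact Finset.sum_congr rfl fun j _ => by ring
    rw [setIntegral_congr_fun measurableSet_Ioi e6,
      integral_finsetSum _ fun j hj => (ho j hj).1.const_mul _, kapL, Finset.mul_sum,
      ← Finset.sum_neg_distrib]
    refine Finset.sum_congr rfl fun j hj => ?_
    rw [integral_const_mul, (ho j hj).2]
    ring
  rw [e1, e5, add_neg_cancel]

/-- `int_1^oo` of the main part -/
theorem kk_mean (ρ : ℂ) (hρ : ρ.re = 1 / 2) (p : Polynomial ℝ) : ∃ C : ℝ, 0 < C ∧ ∀ L : ℝ, 1 ≤ L →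
    ‖(∫ y in Ioi (1 : ℝ), kk ρ p L y) - ((p.eval 0 : ℝ) : ℂ) / ρ‖ ≤ C / L := by
  set M : ℕ → ℂ := fun j => ∫ y in Ioi (1 : ℝ), (y : ℂ) ^ (-ρ - 1) * ((Real.log y : ℝ) : ℂ) ^ j with hM
  refine ⟨(∑ j ∈ p.support, ‖(p.coeff j : ℂ) * M j‖) + 1, by positivity, fun L hL => ?_⟩
  have hL0 : 0 < L := by linarith
  have e1 : ∫ y in Ioi (1 : ℝ), kk ρ p L y =
      ∑ j ∈ p.support, (p.coeff j : ℂ) * ((L : ℂ)⁻¹) ^ j * M j := by
    rw [setIntegral_congr_fun measurableSet_Ioi (fun y hy => kk_large ρ p L y (le_of_lt hy)),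
      integral_finsetSum _ fun j _ => (mono_int ρ hρ j).const_mul _]
    exact Finset.sum_congr rfl fun j _ => by rw [integral_const_mul]
  have e2 : ((p.eval 0 : ℝ) : ℂ) / ρ =
      ∑ j ∈ p.support, (p.coeff j : ℂ) * M j * (if j = 0 then 1 else 0) := by
    have e3 : ∀ j, (p.coeff j : ℂ) * M j * (if j = 0 then 1 else 0) =
        if 0 = j then (p.coeff j : ℂ) * M j else 0 := by
      intro j
      by_cases hj : j = 0
      · simp [hj]
      · simp [hj, Ne.symm hj]
    simp only [e3]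
    rw [Finset.sum_ite_eq]
    have e4 : M 0 = 1 / ρ := mono_zero ρ hρ
    by_cases h0 : 0 ∈ p.support
    · rw [if_pos h0, e4, Polynomial.coeff_zero_eq_eval_zero]
      ring
    · rw [if_neg h0, ← Polynomial.coeff_zero_eq_eval_zero, Polynomial.notMem_support_iff.mp h0]
      simp
  rw [e1, e2, ← Finset.sum_sub_distrib]
  calc ‖∑ j ∈ p.support, ((p.coeff j : ℂ) * ((L : ℂ)⁻¹) ^ j * M j -
        (p.coeff j : ℂ) * M j * (if j = 0 then 1 else 0))‖
      ≤ ∑ j ∈ p.support, ‖(p.coeff j : ℂ) * M j‖ * (1 / L) := by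
        refine norm_sum_le_of_le _ fun j _ => ?_
        have e5 : (p.coeff j : ℂ) * ((L : ℂ)⁻¹) ^ j * M j -
            (p.coeff j : ℂ) * M j * (if j = 0 then 1 else 0) =
            (p.coeff j : ℂ) * M j * (((L : ℂ)⁻¹) ^ j - if j = 0 then 1 else 0) := by ring
        rw [e5, norm_mul]
        refine mul_le_mul_of_nonneg_left ?_ (norm_nonneg _)
        by_cases hj : j = 0
        · simp [hj]
          positivity
        · rw [if_neg hj, sub_zero, norm_pow, norm_inv, Complex.norm_real, Real.norm_eq_abs,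
            abs_of_pos hL0, one_div]
          have h6 : L⁻¹ ≤ 1 := inv_le_one_of_one_le₀ hL
          calc (L⁻¹) ^ j ≤ (L⁻¹) ^ 1 :=
                pow_le_pow_of_le_one (by positivity) h6 (Nat.one_le_iff_ne_zero.mpr hj)
            _ = L⁻¹ := pow_one _
    _ = (∑ j ∈ p.support, ‖(p.coeff j : ℂ) * M j‖) / L := by
        rw [← Finset.sum_mul]
        ring
    _ ≤ _ := by
        gcongr
        linarith

/-- the weight is square integrable against `v^2` -/
theorem wt_int : Integrable (fun v : ℝ => wt v ^ 2 * v ^ 2) := by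
  have h1 : Integrable (fun x : ℝ => ((1 : ℝ) + ‖x‖ ^ 2) ^ (-(5 / 2 : ℝ) / 2)) :=
    integrable_rpow_neg_one_add_norm_sq (by simp; norm_num)
  refine h1.mono' ((wt_cont.pow 2).mul (by fun_prop)).aestronglyMeasurable
    (Eventually.of_forall fun v => ?_)
  rw [Real.norm_eq_abs, Real.norm_eq_abs, abs_of_nonneg (by positivity), sq_abs]
  have hJ : (0 : ℝ) < 1 + v ^ 2 := by positivity
  have e1 : wt v ^ 2 = (1 + v ^ 2) ^ (-(9 / 4) : ℝ) := by
    rw [wt, ← Real.rpow_natCast, ← Real.rpow_mul hJ.le]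
    norm_num
  have e2 : (1 + v ^ 2) ^ (-(5 / 2 : ℝ) / 2) = (1 + v ^ 2) ^ (-(9 / 4) : ℝ) * (1 + v ^ 2) := by
    rw [← Real.rpow_add_one hJ.ne']
    norm_num
  rw [e1, e2]
  have := (Real.rpow_pos_of_pos hJ (-(9 / 4) : ℝ)).le
  nlinarith

theorem wt_le_one (v : ℝ) : wt v ≤ 1 :=
  Real.rpow_le_one_of_one_le_of_nonpos (by nlinarith [sq_nonneg v]) (by norm_num)

/-- Job R3. -/
theorem tR (h1 : S_orthR) (h2 : S_band) : S_TR := by
  intro g p _ hp
  set ρ : ℂ := cl g with hρdef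
  have hρ : ρ.re = 1 / 2 := by simp [hρdef, cl]
  choose F hF C hC hb using exists_F ρ hρ
  obtain ⟨C1, hC1, hmean⟩ := kk_mean ρ hρ p
  set q : Polynomial ℝ := Polynomial.taylor 1 p with hq
  set B : ℝ := ∑ i ∈ q.support, |q.coeff i| * C i with hB
  have hB0 : 0 ≤ B := Finset.sum_nonneg fun i _ => mul_nonneg (abs_nonneg _) (hC i).le
  set A : ℝ := 3 * ∑ j ∈ p.support, |p.coeff j| * ‖kap ρ j‖ with hA
  have hA0 : 0 ≤ A := by positivity
  set W : ℝ := ∫ v in Ioi (0 : ℝ), wt v ^ 2 * v ^ 2 with hW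
  have hW0 : 0 ≤ W := integral_nonneg fun v => by positivity
  refine ⟨C1 + B + (2 * A ^ 2 + 2 * B ^ 2 * W) + 1, by positivity, fun L hL => ?_⟩
  have hL0 : 0 < L := by linarith
  set lam : ℝ := Real.exp (-L) with hlam
  have hl0 : 0 < lam := Real.exp_pos _
  set κ : ℂ := cexp (-(L * (ρ + 1))) with hκ
  have hκn : ‖κ‖ ^ 2 = lam ^ 3 := by
    rw [hκ, Complex.norm_exp, hlam, ← Real.exp_nat_mul, ← Real.exp_nat_mul]
    congr 1
    simp [hρ]
    ring
  have hκL : ‖κ‖ ≤ 1 / L := by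
    rw [hκ, Complex.norm_exp]
    have e1 : (-((L : ℂ) * (ρ + 1))).re = -(3 / 2 * L) := by
      simp [hρ]
      ring
    rw [e1, Real.exp_neg, one_div]
    apply inv_anti₀ hL0
    have := Real.add_one_le_exp (3 / 2 * L)
    linarith
  set f : ℝ → ℂ := fun y => ∑ i ∈ q.support, (κ * (q.coeff i * ((L : ℂ)⁻¹) ^ i)) * F i (lam * y) with hf
  have hgood : Good lam f := Good.sum _ fun i _ => ((hF i).scale hl0).mul _
  -- pointwise bounds
  have hcoef : ∀ i, ‖κ * (q.coeff i * ((L : ℂ)⁻¹) ^ i)‖ ≤ ‖κ‖ * |q.coeff i| := by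
    intro i
    rw [norm_mul, norm_mul, norm_pow, norm_inv, Complex.norm_real, Complex.norm_real,
      Real.norm_eq_abs, Real.norm_eq_abs, abs_of_pos hL0]
    have h6 : (L⁻¹) ^ i ≤ 1 := pow_le_one₀ (by positivity) (inv_le_one_of_one_le₀ hL)
    calc ‖κ‖ * (|q.coeff i| * L⁻¹ ^ i) ≤ ‖κ‖ * (|q.coeff i| * 1) := by gcongr
      _ = _ := by ring
  have hfb : ∀ y, 0 < y → y ≤ 1 → ‖f y‖ ≤ ‖κ‖ * B := by
    intro y hy0 hy1
    have hly : 0 < lam * y := mul_pos hl0 hy0
    have hly1 : lam * y ≤ 1 := by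
      have : lam ≤ 1 := by
        rw [hlam, Real.exp_le_one_iff]
        linarith
      nlinarith
    rw [hB, Finset.mul_sum]
    refine norm_sum_le_of_le _ fun i _ => ?_
    rw [norm_mul]
    have h3 := hb i _ hly
    rw [tgt, if_neg (not_lt.mpr hly1), sub_zero] at h3
    have h4 : ‖F i (lam * y)‖ ≤ C i :=
      h3.trans (by nlinarith [wt_le_one (lam * y), hC i])
    calc _ ≤ (‖κ‖ * |q.coeff i|) * C i :=
          mul_le_mul (hcoef i) h4 (norm_nonneg _) (by positivity)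
      _ = _ := by ring
  set K : ℝ → ℂ := fun y => kk ρ p L y - f y with hK
  have hkint := kk_int ρ hρ p L
  have hfint : IntegrableOn f (Ioi 0) := hgood.int.integrableOn
  -- the difference to the main part
  have hdiff : ∀ y, 0 < y → ‖K y - Km g p L y‖ ≤
      (if y < 1 then A else 0) + ‖κ‖ * B * wt (lam * y) := by
    intro y hy
    have hly : 0 < lam * y := mul_pos hl0 hy
    have e1 : K y - Km g p L y = (if y < 1 then 3 * kapL ρ p L * y else 0) -
        ∑ i ∈ q.support, (κ * (q.coeff i * ((L : ℂ)⁻¹) ^ i)) * (F i (lam * y) - tgt ρ i (lam * y)) := by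
      have e2 : ∑ i ∈ q.support, (κ * (q.coeff i * ((L : ℂ)⁻¹) ^ i)) * tgt ρ i (lam * y) =
          if Real.exp L < y then (y : ℂ) ^ (-ρ - 1) * ((p.eval (Real.log y / L) : ℝ) : ℂ) else 0 := by
        have hiff : 1 < lam * y ↔ Real.exp L < y := by
          rw [hlam, Real.exp_neg, ← div_eq_inv_mul, one_lt_div (Real.exp_pos L)]
        by_cases hc : Real.exp L < y
        · rw [if_pos hc]
          have hlog : Real.log (lam * y) = Real.log y - L := by
            rw [Real.log_mul hl0.ne' hy.ne', hlam, Real.log_exp]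
            ring
          have h3 : p.eval (Real.log y / L) = q.eval (Real.log (lam * y) / L) := by
            rw [hq, Polynomial.taylor_eval, hlog]
            congr 1
            field_simp
            ring
          have h4 : κ * ((lam * y : ℝ) : ℂ) ^ (-ρ - 1) = (y : ℂ) ^ (-ρ - 1) := by
            have hne1 : ((lam * y : ℝ) : ℂ) ≠ 0 := by exact_mod_cast hly.ne'
            have hne2 : (y : ℂ) ≠ 0 := by exact_mod_cast hy.ne'
            rw [Complex.cpow_def_of_ne_zero hne1, Complex.cpow_def_of_ne_zero hne2,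
              ← Complex.ofReal_log hly.le, ← Complex.ofReal_log hy.le, hlog, hκ, ← Complex.exp_add]
            congr 1
            push_cast
            ring
          rw [h3, eval_sum, ← h4, Finset.mul_sum]
          refine Finset.sum_congr rfl fun i _ => ?_
          rw [tgt, if_pos (hiff.mpr hc)]
          push_cast
          rw [div_pow, inv_pow]
          ring
        · rw [if_neg hc]
          refine Finset.sum_eq_zero fun i _ => ?_
          rw [tgt, if_neg (fun h => hc (hiff.mp h)), mul_zero]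
      have e3 : ∑ i ∈ q.support, (κ * (q.coeff i * ((L : ℂ)⁻¹) ^ i)) *
          (F i (lam * y) - tgt ρ i (lam * y)) = f y -
          if Real.exp L < y then (y : ℂ) ^ (-ρ - 1) * ((p.eval (Real.log y / L) : ℝ) : ℂ) else 0 := by
        rw [← e2, hf, ← Finset.sum_sub_distrib]
        exact Finset.sum_congr rfl fun i _ => by ring
      rw [e3, hK]
      have hexp : 1 < Real.exp L := Real.one_lt_exp_iff.mpr hL0
      simp only [kk, Km]
      by_cases c1 : y < 1
      · have c2 : ¬ (1 ≤ y ∧ y ≤ Real.exp L) := fun h => absurd h.1 (not_le.mpr c1)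
        have c3 : ¬ Real.exp L < y := fun h => by linarith
        rw [if_pos c1, if_neg c2, if_neg c3, if_pos c1]
        ring
      · by_cases c3 : Real.exp L < y
        · have c2 : ¬ (1 ≤ y ∧ y ≤ Real.exp L) := fun h => absurd h.2 (not_le.mpr c3)
          rw [if_neg c1, if_neg c2, if_pos c3, if_neg c1]
          ring
        · have c2 : 1 ≤ y ∧ y ≤ Real.exp L := ⟨not_lt.mp c1, not_lt.mp c3⟩
          rw [if_neg c1, if_pos c2, if_neg c3, if_neg c1]
          ring
    rw [e1]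
    refine (norm_sub_le _ _).trans (add_le_add ?_ ?_)
    · by_cases c1 : y < 1
      · rw [if_pos c1, if_pos c1, norm_mul, norm_mul, Complex.norm_real, Real.norm_eq_abs,
          abs_of_pos hy]
        have h5 : ‖kapL ρ p L‖ ≤ ∑ j ∈ p.support, |p.coeff j| * ‖kap ρ j‖ := by
          refine norm_sum_le_of_le _ fun j _ => ?_
          rw [norm_mul, norm_mul, norm_pow, norm_inv, Complex.norm_real, Complex.norm_real,
            Real.norm_eq_abs, Real.norm_eq_abs, abs_of_pos hL0]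
          have h6 : (L⁻¹) ^ j ≤ 1 := pow_le_one₀ (by positivity) (inv_le_one_of_one_le₀ hL)
          calc |p.coeff j| * L⁻¹ ^ j * ‖kap ρ j‖ ≤ |p.coeff j| * 1 * ‖kap ρ j‖ := by gcongr
            _ = _ := by ring
        have h7 : ‖(3 : ℂ)‖ = 3 := by simp
        rw [h7, hA]
        calc 3 * ‖kapL ρ p L‖ * y ≤ 3 * ‖kapL ρ p L‖ * 1 :=
              mul_le_mul_of_nonneg_left c1.le (by positivity)
          _ = 3 * ‖kapL ρ p L‖ := by ring
          _ ≤ _ := by gcongr
      · rw [if_neg c1, if_neg c1, norm_zero]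
    · rw [hB, Finset.mul_sum, Finset.sum_mul]
      refine norm_sum_le_of_le _ fun i _ => ?_
      rw [norm_mul]
      calc _ ≤ (‖κ‖ * |q.coeff i|) * (C i * wt (lam * y)) :=
            mul_le_mul (hcoef i) (hb i _ hly) (norm_nonneg _) (by positivity)
        _ = _ := by ring
  -- the square of the bound
  have hsq : ∀ y, 0 < y → ‖K y - Km g p L y‖ ^ 2 * y ^ 2 ≤
      (if y < 1 then 2 * A ^ 2 else 0) + 2 * B ^ 2 * lam * (wt (lam * y) ^ 2 * (lam * y) ^ 2) := by
    intro y hy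
    have h3 := hdiff y hy
    have h4 : ‖K y - Km g p L y‖ ^ 2 ≤
        2 * (if y < 1 then A else 0) ^ 2 + 2 * (‖κ‖ * B * wt (lam * y)) ^ 2 := by
      have h5 := pow_le_pow_left₀ (norm_nonneg _) h3 2
      refine h5.trans ?_
      nlinarith [sq_nonneg ((if y < 1 then A else 0) - ‖κ‖ * B * wt (lam * y))]
    have h6 : (‖κ‖ * B * wt (lam * y)) ^ 2 * y ^ 2 =
        B ^ 2 * lam * (wt (lam * y) ^ 2 * (lam * y) ^ 2) := by
      rw [mul_pow, mul_pow, hκn]
      ring
    have h7 : (if y < 1 then A else 0) ^ 2 * y ^ 2 ≤ if y < 1 then A ^ 2 else 0 := by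
      by_cases c1 : y < 1
      · rw [if_pos c1, if_pos c1]
        have : y ^ 2 ≤ 1 := by nlinarith
        nlinarith [sq_nonneg A]
      · rw [if_neg c1, if_neg c1]
        simp
    have h8 : (if y < 1 then 2 * A ^ 2 else 0) = 2 * (if y < 1 then A ^ 2 else 0) := by
      by_cases c1 : y < 1
      · simp [c1]
      · simp [c1]
    rw [h8]
    calc ‖K y - Km g p L y‖ ^ 2 * y ^ 2 ≤
          (2 * (if y < 1 then A else 0) ^ 2 + 2 * (‖κ‖ * B * wt (lam * y)) ^ 2) * y ^ 2 := by gcongr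
      _ = 2 * ((if y < 1 then A else 0) ^ 2 * y ^ 2) +
            2 * ((‖κ‖ * B * wt (lam * y)) ^ 2 * y ^ 2) := by ring
      _ ≤ _ := by
          rw [h6]
          linarith
  have hcomp : IntegrableOn (fun y : ℝ => wt (lam * y) ^ 2 * (lam * y) ^ 2) (Ioi 0) := by
    have := wt_int.comp_mul_left' hl0.ne'
    exact this.integrableOn
  have hite : IntegrableOn (fun y : ℝ => if y < 1 then 2 * A ^ 2 else 0) (Ioi 0) := by
    have e1 : (fun y : ℝ => if y < 1 then 2 * A ^ 2 else 0) =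
        (Iio (1 : ℝ)).indicator (fun _ => 2 * A ^ 2) := by
      funext y
      simp [Set.indicator, Set.mem_Iio]
    rw [e1, IntegrableOn, integrable_indicator_iff measurableSet_Iio, IntegrableOn,
      Measure.restrict_restrict measurableSet_Iio]
    have e2 : Iio (1 : ℝ) ∩ Ioi 0 = Ioo 0 1 := by
      ext x
      simp [and_comm]
    rw [e2]
    exact integrableOn_const (by simp)
  have hmaj : IntegrableOn (fun y : ℝ => (if y < 1 then 2 * A ^ 2 else 0) +
      2 * B ^ 2 * lam * (wt (lam * y) ^ 2 * (lam * y) ^ 2)) (Ioi 0) :=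
    hite.add (hcomp.const_mul _)
  have hKmeas : Measurable K := (kk_meas ρ p L).sub hgood.cont.measurable
  have hint : IntegrableOn (fun y : ℝ => ‖K y - Km g p L y‖ ^ 2 * y ^ 2) (Ioi 0) := by
    refine hmaj.mono' ?_ ?_
    · refine Measurable.aestronglyMeasurable ?_
      exact ((hKmeas.sub (km_meas g p L)).norm.pow_const 2).mul (by fun_prop)
    · filter_upwards [ae_restrict_mem measurableSet_Ioi] with y hy
      rw [Real.norm_eq_abs, abs_of_nonneg (by positivity)]
      exact hsq y hy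
  refine ⟨K, hKmeas, hkint.sub hfint, ?_, ?_, hint, ?_⟩
  · intro θ hθ0 hθ1
    have e1 : (fun y : ℝ => ((Int.fract (θ * y) : ℝ) : ℂ) * K y) =
        fun y : ℝ => ((Int.fract (θ * y) : ℝ) : ℂ) * kk ρ p L y -
          ((Int.fract (θ * y) : ℝ) : ℂ) * f y := by
      funext y
      rw [hK]
      ring
    rw [e1, integral_sub (bd_int hkint θ) (bd_int hfint θ),
      kk_orth h1 ρ hρ p hp L θ (hl0.trans_le hθ0) hθ1,
      h2 f lam hl0 hgood.cont hgood.int hgood.odd hgood.spec hgood.mean θ hθ0, sub_zero]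
  · have e1 : ∫ y in Ioi (1 : ℝ), K y =
        (∫ y in Ioi (1 : ℝ), kk ρ p L y) - ∫ y in Ioi (1 : ℝ), f y :=
      integral_sub (hkint.mono_set (Ioi_subset_Ioi zero_le_one))
        (hfint.mono_set (Ioi_subset_Ioi zero_le_one))
    have e2 : ∫ y in Ioi (1 : ℝ), f y = -∫ y in Ioo (0 : ℝ) 1, f y := by
      have h3 := split_int hfint
      rw [hgood.mean] at h3
      linear_combination -h3
    have h4 : ‖∫ y in Ioo (0 : ℝ) 1, f y‖ ≤ ‖κ‖ * B := by
      have h5 := norm_setIntegral_le_of_norm_le_const (μ := volume) (s := Ioo (0 : ℝ) 1) (f := f)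
        (C := ‖κ‖ * B) (by simp) (fun y hy => hfb y hy.1 hy.2.le)
      simpa using h5
    have h5 : ‖κ‖ * B ≤ B / L := by
      calc ‖κ‖ * B ≤ 1 / L * B := by gcongr
        _ = B / L := by ring
    rw [e1, e2]
    calc ‖(∫ y in Ioi (1 : ℝ), kk ρ p L y) - -(∫ y in Ioo (0 : ℝ) 1, f y) -
          ((p.eval 0 : ℝ) : ℂ) / ρ‖
        = ‖((∫ y in Ioi (1 : ℝ), kk ρ p L y) - ((p.eval 0 : ℝ) : ℂ) / ρ) +
            ∫ y in Ioo (0 : ℝ) 1, f y‖ := by
          congr 1
          ring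
      _ ≤ C1 / L + B / L := (norm_add_le _ _).trans (add_le_add (hmean L hL) (h4.trans h5))
      _ = (C1 + B) / L := by ring
      _ ≤ _ := by
          refine div_le_div_of_nonneg_right ?_ hL0.le
          nlinarith [mul_nonneg (sq_nonneg B) hW0, sq_nonneg A]
  · have h3 : ∫ y in Ioi (0 : ℝ), ‖K y - Km g p L y‖ ^ 2 * y ^ 2 ≤
        ∫ y in Ioi (0 : ℝ), ((if y < 1 then 2 * A ^ 2 else 0) +
          2 * B ^ 2 * lam * (wt (lam * y) ^ 2 * (lam * y) ^ 2)) :=
      setIntegral_mono_on hint hmaj measurableSet_Ioi fun y hy => hsq y hy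
    have h4 : ∫ y in Ioi (0 : ℝ), (if y < 1 then 2 * A ^ 2 else 0) = 2 * A ^ 2 := by
      have e1 : (fun y : ℝ => if y < 1 then 2 * A ^ 2 else 0) =
          (Iio (1 : ℝ)).indicator (fun _ => 2 * A ^ 2) := by
        funext y
        simp [Set.indicator, Set.mem_Iio]
      rw [e1, integral_indicator measurableSet_Iio, Measure.restrict_restrict measurableSet_Iio]
      have e2 : Iio (1 : ℝ) ∩ Ioi 0 = Ioo 0 1 := by
        ext x
        simp [and_comm]
      rw [e2]
      simp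
    have h5 : ∫ y in Ioi (0 : ℝ), wt (lam * y) ^ 2 * (lam * y) ^ 2 = lam⁻¹ * W := by
      have := integral_comp_mul_left_Ioi (fun v => wt v ^ 2 * v ^ 2) 0 hl0
      rw [mul_zero, smul_eq_mul] at this
      exact this
    rw [integral_add hite (hcomp.const_mul _), integral_const_mul, h4, h5] at h3
    refine h3.trans ?_
    have h6 : 2 * B ^ 2 * lam * (lam⁻¹ * W) = 2 * B ^ 2 * W := by
      field_simp
    rw [h6]
    linarith

end Pool.Agent.Q258.BD
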