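import Pool.Agent.Q258.BD.Gfun

/-!
# Band limited approximation of the model
-/

set_option autoImplicit false

namespace Pool.Agent.Q258.BD

open Complex MeasureTheory Filter Topology Set SchwartzMap
open scoped FourierTransform Convolution

/-- odd integrable continuous functions with spectrum in `[-lam, lam]` and mean zero on the half line -/
structure Good (lam : ℝ) (F : ℝ → ℂ) : Prop where
  cont : Continuous F
  int : Integrable F
  odd : ∀ y, F (-y) = -F y
  spec : ∀ ξ : ℝ, lam ≤ |ξ| → ∫ y : ℝ, cexp (-(2 * Real.pi * ξ * y * I)) * F y = 0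
  mean : ∫ y in Ioi (0 : ℝ), F y = 0

theorem fourier_exp (F : ℝ → ℂ) (ξ : ℝ) :
    𝓕 F ξ = ∫ y : ℝ, cexp (-(2 * Real.pi * ξ * y * I)) * F y := by
  rw [Real.fourier_real_eq_integral_exp_smul]
  congr 1
  funext y
  simp only [smul_eq_mul]
  congr 2
  push_cast
  ring

theorem exp_int {F : ℝ → ℂ} (hF : Integrable F) (ξ : ℝ) :
    Integrable (fun y : ℝ => cexp (-(2 * Real.pi * ξ * y * I)) * F y) := by
  refine hF.bdd_mul (c := 1) ?_ ?_
  · exact Continuous.aestronglyMeasurable (by fun_prop)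
  · refine Eventually.of_forall fun y => ?_
    rw [show (-(2 * Real.pi * ξ * y * I) : ℂ) = ((-(2 * Real.pi * ξ * y) : ℝ) : ℂ) * I by push_cast; ring,
      Complex.norm_exp_ofReal_mul_I]

theorem Good.zero (lam : ℝ) : Good lam (fun _ => 0) :=
  ⟨continuous_const, integrable_zero _ _ _, fun _ => by simp, fun _ _ => by simp, by simp⟩

theorem Good.add {lam : ℝ} {F G : ℝ → ℂ} (hF : Good lam F) (hG : Good lam G) :
    Good lam (fun y => F y + G y) := by
  refine ⟨hF.cont.add hG.cont, hF.int.add hG.int, fun y => ?_, fun ξ hξ => ?_, ?_⟩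
  · rw [hF.odd, hG.odd]; ring
  · simp only [mul_add]
    rw [integral_add (exp_int hF.int ξ) (exp_int hG.int ξ), hF.spec ξ hξ, hG.spec ξ hξ, add_zero]
  · rw [integral_add hF.int.integrableOn hG.int.integrableOn, hF.mean, hG.mean, add_zero]

theorem Good.mul {lam : ℝ} {F : ℝ → ℂ} (hF : Good lam F) (c : ℂ) : Good lam (fun y => c * F y) := by
  refine ⟨hF.cont.const_mul c, hF.int.const_mul c, fun y => ?_, fun ξ hξ => ?_, ?_⟩
  · rw [hF.odd]; ring
  · have : (fun y : ℝ => cexp (-(2 * Real.pi * ξ * y * I)) * (c * F y)) =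
        fun y : ℝ => c * (cexp (-(2 * Real.pi * ξ * y * I)) * F y) := by
      funext y; ring
    rw [this, integral_const_mul, hF.spec ξ hξ, mul_zero]
  · rw [integral_const_mul, hF.mean, mul_zero]

theorem Good.sum {lam : ℝ} {ι : Type*} (s : Finset ι) {F : ι → ℝ → ℂ} (hF : ∀ i ∈ s, Good lam (F i)) :
    Good lam (fun y => ∑ i ∈ s, F i y) := by
  classical
  induction s using Finset.induction_on with
  | empty => simpa using Good.zero lam
  | insert a s ha ih =>
    have h1 := (hF a (Finset.mem_insert_self a s)).add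
      (ih fun i hi => hF i (Finset.mem_insert_of_mem hi))
    simpa [Finset.sum_insert ha] using h1

theorem Good.scale {F : ℝ → ℂ} (hF : Good 1 F) {lam : ℝ} (hl : 0 < lam) :
    Good lam (fun y => F (lam * y)) := by
  refine ⟨hF.cont.comp (by fun_prop), hF.int.comp_mul_left' hl.ne', fun y => ?_, fun ξ hξ => ?_, ?_⟩
  · rw [mul_neg, hF.odd]
  · have h1 : 1 ≤ |ξ / lam| := by
      rw [abs_div, abs_of_pos hl, le_div_iff₀ hl, one_mul]
      exact hξ
    have h2 := hF.spec _ h1
    have h3 := Measure.integral_comp_mul_left (fun v : ℝ => cexp (-(2 * Real.pi * (ξ / lam : ℝ) * v * I)) * F v) lam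
    rw [h2, smul_zero] at h3
    rw [← h3]
    congr 1
    funext y
    congr 2
    push_cast
    have : (lam : ℂ) ≠ 0 := by exact_mod_cast hl.ne'
    field_simp
  · have h3 := integral_comp_mul_left_Ioi F 0 hl
    rw [mul_zero, hF.mean, smul_zero] at h3
    exact h3

theorem GG_int (z : ℂ) (hz : z.re = 5 / 2) (i : ℕ) : Integrable (GG z i) := by
  obtain ⟨C, hC, h⟩ := GG_bound z hz i
  have h1 : Integrable (fun x : ℝ => ((1 : ℝ) + ‖x‖ ^ 2) ^ (-(5 / 4 : ℝ) / 2)) :=
    integrable_rpow_neg_one_add_norm_sq (by simp; norm_num)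
  refine (h1.const_mul C).mono' (GG_cont z i).aestronglyMeasurable (Eventually.of_forall fun x => ?_)
  refine (h x).trans (le_of_eq ?_)
  rw [Real.norm_eq_abs, sq_abs]
  norm_num

theorem GG_bdd (z : ℂ) (hz : z.re = 5 / 2) (i : ℕ) : ∃ C : ℝ, 0 < C ∧ ∀ v, ‖GG z i v‖ ≤ C := by
  obtain ⟨C, hC, h⟩ := GG_bound z hz i
  refine ⟨C, hC, fun v => (h v).trans ?_⟩
  have : (1 + v ^ 2) ^ (-(5 / 8) : ℝ) ≤ 1 :=
    Real.rpow_le_one_of_one_le_of_nonpos (by nlinarith [sq_nonneg v]) (by norm_num)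
  nlinarith

/-- the convolution of the model with the band limited kernel -/
theorem exists_F0 (z : ℂ) (hz : z.re = 5 / 2) (i : ℕ) (Ψ : 𝓢(ℝ, ℂ)) (hev : ∀ x, Ψ (-x) = Ψ x)
    (hspec : ∀ ξ : ℝ, 1 ≤ |ξ| → 𝓕 (Ψ : ℝ → ℂ) ξ = 0) (hint : ∫ x, Ψ x = 1) :
    ∃ F : ℝ → ℂ, Band F ∧ ∃ C : ℝ, 0 < C ∧ ∀ v, ‖F v - GG z i v‖ ≤ C * wt v := by
  obtain ⟨C0, hC0, hb⟩ := GG_bdd z hz i
  obtain ⟨C, hC, hsub⟩ := GG_sub z hz i
  have hG := GG_int z hz i
  have hGc := GG_cont z i
  set F : ℝ → ℂ := (Ψ : ℝ → ℂ) ⋆[ContinuousLinearMap.mul ℂ ℂ, volume] GG z i with hF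
  have hFv : ∀ v, F v = ∫ w, Ψ w * GG z i (v - w) := by
    intro v
    rw [hF, convolution_def]
    rfl
  refine ⟨F, ⟨?_, ?_, ?_, ?_⟩, ?_⟩
  · apply BddAbove.continuous_convolution_right_of_integrable _ _ Ψ.integrable hGc
    exact ⟨C0, by rintro _ ⟨v, rfl⟩; exact hb v⟩
  · exact Ψ.integrable.integrable_convolution _ hG
  · intro y
    rw [hFv, hFv, ← integral_neg_eq_self, ← integral_neg]
    congr 1
    funext w
    rw [hev, show -y - -w = -(y - w) by ring, GG_odd]
    ring
  · intro ξ hξ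
    rw [hF, Real.fourier_mul_convolution_eq Ψ.integrable hG, hspec ξ hξ, zero_mul]
  · have hW : Integrable (fun w : ℝ => ‖Ψ w‖ * (|w| * (1 + w ^ 2) ^ 2)) := by
      have h1 := Ψ.integrable_pow_mul volume 1
      have h3 := (Ψ.integrable_pow_mul volume 3).const_mul 2
      have h5 := Ψ.integrable_pow_mul volume 5
      have := (h1.add h3).add h5
      refine this.congr (Eventually.of_forall fun w => ?_)
      simp only [Pi.add_apply, Real.norm_eq_abs]
      rw [← sq_abs w]
      ring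
    refine ⟨C * (∫ w, ‖Ψ w‖ * (|w| * (1 + w ^ 2) ^ 2)) + 1, ?_, fun v => ?_⟩
    · have : 0 ≤ ∫ w, ‖Ψ w‖ * (|w| * (1 + w ^ 2) ^ 2) := integral_nonneg fun w => by positivity
      positivity
    · have hI : Integrable (fun w => Ψ w * GG z i (v - w)) := by
        refine Ψ.integrable.mul_bdd (c := C0) ?_ ?_
        · exact (hGc.comp (by fun_prop)).aestronglyMeasurable
        · exact Eventually.of_forall fun w => hb _
      have e1 : F v - GG z i v = ∫ w, Ψ w * (GG z i (v - w) - GG z i v) := by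
        have e2 : GG z i v = ∫ w, Ψ w * GG z i v := by
          rw [integral_mul_const, hint, one_mul]
        rw [hFv]
        conv_lhs => rw [e2]
        rw [← integral_sub hI (Ψ.integrable.mul_const _)]
        congr 1
        funext w
        ring
      rw [e1]
      calc ‖∫ w, Ψ w * (GG z i (v - w) - GG z i v)‖
          ≤ ∫ w, (C * wt v) * (‖Ψ w‖ * (|w| * (1 + w ^ 2) ^ 2)) := by
            refine norm_integral_le_of_norm_le (hW.const_mul _) (Eventually.of_forall fun w => ?_)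
            rw [norm_mul]
            calc ‖Ψ w‖ * ‖GG z i (v - w) - GG z i v‖
                ≤ ‖Ψ w‖ * (C * wt v * (|w| * (1 + w ^ 2) ^ 2)) := by
                  gcongr
                  exact hsub v w
              _ = _ := by ring
        _ = C * (∫ w, ‖Ψ w‖ * (|w| * (1 + w ^ 2) ^ 2)) * wt v := by
            rw [integral_const_mul]
            ring
        _ ≤ _ := by
            have := (wt_pos v).le
            nlinarith

/-- the target -/
noncomputable def tgt (ρ : ℂ) (i : ℕ) (v : ℝ) : ℂ :=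
  if 1 < v then (v : ℂ) ^ (-ρ - 1) * ((Real.log v : ℝ) : ℂ) ^ i else 0

theorem tgt_meas (ρ : ℂ) (i : ℕ) : Measurable (tgt ρ i) := by
  unfold tgt
  refine Measurable.ite (measurableSet_lt measurable_const measurable_id) ?_ measurable_const
  exact ((measurable_ofReal.pow_const _)).mul
    ((measurable_ofReal.comp Real.measurable_log).pow_const _)

theorem wt_ge_of_le_one {v : ℝ} (h0 : 0 < v) (h1 : v ≤ 1) : 1 / 4 ≤ wt v := by
  have h2 : 1 + v ^ 2 ≤ 2 := by nlinarith
  have h3 : (2 : ℝ) ^ (-(9 / 8) : ℝ) ≤ wt v := by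
    rw [wt]
    exact Real.rpow_le_rpow_of_nonpos (by positivity) h2 (by norm_num)
  have h4 : (2 : ℝ) ^ (-2 : ℝ) ≤ (2 : ℝ) ^ (-(9 / 8) : ℝ) :=
    Real.rpow_le_rpow_of_exponent_le (by norm_num) (by norm_num)
  have h5 : (2 : ℝ) ^ (-2 : ℝ) = 1 / 4 := by
    rw [Real.rpow_neg (by norm_num)]
    norm_num
  linarith

theorem GG_tgt (ρ : ℂ) (hρ : ρ.re = 1 / 2) (i : ℕ) : ∃ C : ℝ, 0 < C ∧ ∀ v : ℝ, 0 < v →
    ‖GG (ρ + 2) i v - tgt ρ i v‖ ≤ C * wt v := by
  have hz : (ρ + 2).re = 5 / 2 := by simp [hρ]; norm_num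
  obtain ⟨C0, hC0, hb⟩ := GG_bdd (ρ + 2) hz i
  obtain ⟨C1, hC1, hd⟩ := hhd_bound (ρ + 2) hz i
  refine ⟨4 * C0 + 4 * C1, by positivity, fun v hv => ?_⟩
  by_cases h1 : 1 < v
  swap
  · rw [tgt, if_neg h1, sub_zero]
    have h2 := wt_ge_of_le_one hv (not_lt.mp h1)
    have h3 := hb v
    nlinarith [wt_pos v]
  · have hlog : 0 < Real.log v := Real.log_pos h1
    have e1 : tgt ρ i v = (v : ℂ) * hh (ρ + 2) i (Real.log v) := by
      rw [tgt, if_pos h1, hh]
      have hvc : (v : ℂ) ≠ 0 := by exact_mod_cast hv.ne'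
      rw [Complex.cpow_def_of_ne_zero hvc, ← Complex.ofReal_log hv.le]
      have : cexp (((Real.log v : ℝ) : ℂ) * (-ρ - 1)) =
          (v : ℂ) * cexp (-((ρ + 2) * ((Real.log v : ℝ) : ℂ))) := by
        have h5 : (v : ℂ) = cexp ((Real.log v : ℝ) : ℂ) := by
          rw [← Complex.ofReal_exp, Real.exp_log hv]
        conv_rhs => rw [h5]
        rw [← Complex.exp_add]
        congr 1
        ring
      rw [this]
      ring
    have h2 : el v - Real.log v ≤ 1 / (2 * v ^ 2) := by
      have h3 : el v - Real.log v = Real.log (1 + 1 / v ^ 2) / 2 := by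
        have h4 : 1 + v ^ 2 = v ^ 2 * (1 + 1 / v ^ 2) := by field_simp; ring
        rw [el, h4, Real.log_mul (by positivity) (by positivity), Real.log_pow]
        push_cast
        ring
      rw [h3]
      have h5 := Real.log_le_sub_one_of_pos (x := 1 + 1 / v ^ 2) (by positivity)
      have h6 : 1 / (2 * v ^ 2) = (1 / v ^ 2) / 2 := by field_simp
      rw [h6]
      linarith
    have h3 : Real.log v ≤ el v := by
      have : Real.log (v ^ 2) ≤ Real.log (1 + v ^ 2) :=
        Real.log_le_log (by positivity) (by linarith)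
      rw [Real.log_pow] at this
      push_cast at this
      rw [el]
      linarith
    have h4 := (convex_Icc (Real.log v) (el v)).norm_image_sub_le_of_norm_hasDerivWithin_le
      (f := hh (ρ + 2) i) (f' := hhd (ρ + 2) i) (C := C1 * Real.exp (-(9 / 4) * Real.log v))
      (fun x _ => (hh_deriv _ i x).hasDerivWithinAt) (fun x hx => by
        refine (hd x (hlog.le.trans hx.1)).trans ?_
        refine mul_le_mul_of_nonneg_left (Real.exp_le_exp.mpr ?_) hC1.le
        linarith [hx.1]) (left_mem_Icc.mpr h3) (right_mem_Icc.mpr h3)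
    rw [Real.norm_eq_abs, abs_of_nonneg (by linarith)] at h4
    -- comparison of weights
    have h5 : Real.exp (-(9 / 4) * Real.log v) ≤ 4 * wt v := by
      rw [wt_eq]
      have h6 : el v ≤ Real.log v + 1 / 2 := by
        have : 1 / (2 * v ^ 2) ≤ 1 / 2 := by
          apply one_div_le_one_div_of_le (by norm_num)
          nlinarith
        linarith
      have h7 : Real.exp (-(9 / 4) * Real.log v) ≤ Real.exp (9 / 8 + -(9 / 4) * el v) := by
        apply Real.exp_le_exp.mpr
        linarith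
      rw [Real.exp_add] at h7
      have h8 : Real.exp (9 / 8) ≤ 4 := by
        have h9 := Real.exp_one_lt_d9
        have h10 : Real.exp (1 / 8) ≤ 8 / 7 := by
          have := Real.exp_bound_div_one_sub_of_interval (x := 1 / 8) (by norm_num) (by norm_num)
          refine this.trans ?_
          norm_num
        rw [show (9 / 8 : ℝ) = 1 + 1 / 8 by norm_num, Real.exp_add]
        have := Real.exp_pos (1 : ℝ)
        have := Real.exp_pos (1 / 8 : ℝ)
        nlinarith
      refine h7.trans ?_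
      gcongr
    rw [e1, GG, ← mul_sub, norm_mul, Complex.norm_real, Real.norm_eq_abs, abs_of_pos hv]
    have h10 := wt_pos v
    have h11 : ‖hh (ρ + 2) i (el v) - hh (ρ + 2) i (Real.log v)‖ ≤
        C1 * (4 * wt v) * (1 / (2 * v ^ 2)) := by
      refine h4.trans ?_
      have h12 : C1 * Real.exp (-(9 / 4) * Real.log v) ≤ C1 * (4 * wt v) :=
        mul_le_mul_of_nonneg_left h5 hC1.le
      exact mul_le_mul h12 h2 (by linarith) (by positivity)
    calc v * ‖hh (ρ + 2) i (el v) - hh (ρ + 2) i (Real.log v)‖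
        ≤ v * (C1 * (4 * wt v) * (1 / (2 * v ^ 2))) := mul_le_mul_of_nonneg_left h11 hv.le
      _ = C1 * (4 * wt v) * (1 / (2 * v)) := by field_simp
      _ ≤ C1 * (4 * wt v) * 1 := by
          have : 1 / (2 * v) ≤ 1 := by
            rw [div_le_one (by positivity)]
            linarith
          have h9 := wt_pos v
          gcongr
      _ ≤ (4 * C0 + 4 * C1) * wt v := by
          have := wt_pos v
          nlinarith

/-- **the band limited functions with the prescribed behaviour at infinity** -/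
theorem exists_F (ρ : ℂ) (hρ : ρ.re = 1 / 2) (i : ℕ) : ∃ F : ℝ → ℂ, Good 1 F ∧
    ∃ C : ℝ, 0 < C ∧ ∀ v : ℝ, 0 < v → ‖F v - tgt ρ i v‖ ≤ C * wt v := by
  have hz : (ρ + 2).re = 5 / 2 := by simp [hρ]; norm_num
  obtain ⟨Ψ, Φ, hev, hspec, hint, hΦ, hne⟩ := exists_phi
  obtain ⟨F0, hF0, C1, hC1, h1⟩ := exists_F0 (ρ + 2) hz i Ψ hev hspec hint
  obtain ⟨C2, hC2, h2⟩ := GG_tgt ρ hρ i
  obtain ⟨C3, hC3, h3⟩ := schwartz_decay Φ
  set c : ℂ := -(∫ y in Ioi (0 : ℝ), F0 y) / ∫ x in Ioi (0 : ℝ), Φ x with hc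
  refine ⟨fun y => F0 y + c * Φ y, ⟨hF0.cont.add (hΦ.cont.const_mul c), hF0.int.add (hΦ.int.const_mul c),
    fun y => ?_, fun ξ hξ => ?_, ?_⟩, C1 + C2 + ‖c‖ * C3, by positivity, fun v hv => ?_⟩
  · rw [hF0.odd, hΦ.odd]; ring
  · have e1 := hF0.spec ξ hξ
    have e2 := hΦ.spec ξ hξ
    rw [fourier_exp] at e1 e2
    have : (fun y : ℝ => cexp (-(2 * Real.pi * ξ * y * I)) * (F0 y + c * Φ y)) =
        fun y : ℝ => cexp (-(2 * Real.pi * ξ * y * I)) * F0 y +
          c * (cexp (-(2 * Real.pi * ξ * y * I)) * Φ y) := by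
      funext y; ring
    rw [this, integral_add (exp_int hF0.int ξ) ((exp_int hΦ.int ξ).const_mul c), integral_const_mul,
      e1, e2]
    simp
  · rw [integral_add hF0.int.integrableOn (hΦ.int.const_mul c).integrableOn, integral_const_mul, hc,
      div_mul_cancel₀ _ hne]
    ring
  · have a1 := h1 v
    have a2 := h2 v hv
    have a3 := h3 v
    have a4 : (1 + v ^ 2) ^ (-2 : ℝ) ≤ wt v := by
      rw [wt]
      exact Real.rpow_le_rpow_of_exponent_le (by nlinarith [sq_nonneg v]) (by norm_num)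
    have e : F0 v + c * Φ v - tgt ρ i v =
        (F0 v - GG (ρ + 2) i v) + (GG (ρ + 2) i v - tgt ρ i v) + c * Φ v := by ring
    rw [e]
    calc _ ≤ ‖F0 v - GG (ρ + 2) i v‖ + ‖GG (ρ + 2) i v - tgt ρ i v‖ + ‖c * Φ v‖ := norm_add₃_le
      _ ≤ C1 * wt v + C2 * wt v + ‖c‖ * (C3 * wt v) := by
          rw [norm_mul]
          gcongr
          refine a3.trans ?_
          gcongr
      _ = _ := by ring

end Pool.Agent.Q258.BD
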