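import Pool.Agent.Q258.BD.Psi

/-!
# The smooth odd model `v (1+v^2)^{-z/2} (log(1+v^2)/2)^i`
-/

set_option autoImplicit false

namespace Pool.Agent.Q258.BD

open Complex MeasureTheory Filter Topology Set

theorem pow_le_exp (i : ℕ) : ∃ C : ℝ, 0 < C ∧ ∀ s : ℝ, 0 ≤ s → s ^ i ≤ C * Real.exp (s / 4) := by
  refine ⟨4 ^ i * (i.factorial : ℝ), by positivity, fun s hs => ?_⟩
  have h := Real.pow_div_factorial_le_exp (s / 4) (by positivity) i
  rw [div_le_iff₀ (by positivity), div_pow, div_le_iff₀ (by positivity)] at h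
  linarith

/-- `e^{-z s} s^i` -/
noncomputable def hh (z : ℂ) (i : ℕ) (s : ℝ) : ℂ := cexp (-(z * s)) * (s : ℂ) ^ i

/-- its derivative -/
noncomputable def hhd (z : ℂ) (i : ℕ) (s : ℝ) : ℂ := -z * hh z i s + i * hh z (i - 1) s

theorem hh_deriv (z : ℂ) (i : ℕ) (s : ℝ) : HasDerivAt (hh z i) (hhd z i s) s := by
  have h1 : HasDerivAt (fun s : ℝ => (s : ℂ)) 1 s := by
    simpa using (hasDerivAt_id s).ofReal_comp
  have h2 : HasDerivAt (fun s : ℝ => cexp (-(z * s))) (cexp (-(z * s)) * (-(z * 1))) s :=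
    ((h1.const_mul z).neg).cexp
  have h3 : HasDerivAt (fun s : ℝ => (s : ℂ) ^ i) (i * (s : ℂ) ^ (i - 1) * 1) s := h1.pow i
  have h4 := h2.mul h3
  refine h4.congr_deriv ?_
  simp only [hhd, hh]
  ring

theorem hh_cont (z : ℂ) (i : ℕ) : Continuous (hh z i) := by
  unfold hh
  fun_prop

theorem hhd_cont (z : ℂ) (i : ℕ) : Continuous (hhd z i) := by
  unfold hhd
  exact (continuous_const.mul (hh_cont z i)).add (continuous_const.mul (hh_cont z _))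

theorem hh_bound (z : ℂ) (hz : z.re = 5 / 2) (i : ℕ) : ∃ C : ℝ, 0 < C ∧ ∀ s : ℝ, 0 ≤ s →
    ‖hh z i s‖ ≤ C * Real.exp (-(9 / 4) * s) := by
  obtain ⟨C, hC, h⟩ := pow_le_exp i
  refine ⟨C, hC, fun s hs => ?_⟩
  rw [hh, norm_mul, norm_pow, Complex.norm_exp, Complex.norm_real, Real.norm_eq_abs, abs_of_nonneg hs]
  have h1 : (-(z * (s : ℂ))).re = -(5 / 2) * s := by
    simp [hz]
  rw [h1]
  calc Real.exp (-(5 / 2) * s) * s ^ i ≤ Real.exp (-(5 / 2) * s) * (C * Real.exp (s / 4)) := by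
        gcongr
        exact h s hs
    _ = C * Real.exp (-(9 / 4) * s) := by
        rw [show -(9 / 4) * s = -(5 / 2) * s + s / 4 by ring, Real.exp_add]
        ring

theorem hhd_bound (z : ℂ) (hz : z.re = 5 / 2) (i : ℕ) : ∃ C : ℝ, 0 < C ∧ ∀ s : ℝ, 0 ≤ s →
    ‖hhd z i s‖ ≤ C * Real.exp (-(9 / 4) * s) := by
  obtain ⟨C1, hC1, h1⟩ := hh_bound z hz i
  obtain ⟨C2, hC2, h2⟩ := hh_bound z hz (i - 1)
  refine ⟨‖z‖ * C1 + i * C2 + 1, by positivity, fun s hs => ?_⟩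
  have a1 := h1 s hs
  have a2 := h2 s hs
  calc ‖hhd z i s‖ ≤ ‖-z * hh z i s‖ + ‖(i : ℂ) * hh z (i - 1) s‖ := norm_add_le _ _
    _ = ‖z‖ * ‖hh z i s‖ + i * ‖hh z (i - 1) s‖ := by
        rw [norm_mul, norm_neg, norm_mul, Complex.norm_natCast]
    _ ≤ ‖z‖ * (C1 * Real.exp (-(9 / 4) * s)) + i * (C2 * Real.exp (-(9 / 4) * s)) := by gcongr
    _ ≤ (‖z‖ * C1 + i * C2 + 1) * Real.exp (-(9 / 4) * s) := by
        have := (Real.exp_pos (-(9 / 4) * s)).le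
        nlinarith

/-- `log(1+v^2)/2` -/
noncomputable def el (v : ℝ) : ℝ := Real.log (1 + v ^ 2) / 2

theorem el_nonneg (v : ℝ) : 0 ≤ el v := by
  unfold el
  have : 0 ≤ Real.log (1 + v ^ 2) := Real.log_nonneg (by nlinarith [sq_nonneg v])
  positivity

theorem el_cont : Continuous el := by
  unfold el
  refine Continuous.div_const (Continuous.log (by fun_prop) ?_) 2
  intro x
  positivity

theorem el_neg (v : ℝ) : el (-v) = el v := by simp [el]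

theorem el_deriv (v : ℝ) : HasDerivAt el (v / (1 + v ^ 2)) v := by
  have h1 : HasDerivAt (fun v : ℝ => 1 + v ^ 2) (2 * v) v := by
    have := (hasDerivAt_pow 2 v).const_add 1
    simpa using this
  have h2 := (h1.log (by positivity)).div_const 2
  refine h2.congr_deriv ?_
  ring

/-- the weight `(1+v^2)^{-9/8}` -/
noncomputable def wt (v : ℝ) : ℝ := (1 + v ^ 2) ^ (-(9 / 8) : ℝ)

theorem wt_pos (v : ℝ) : 0 < wt v := Real.rpow_pos_of_pos (by positivity) _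

theorem wt_eq (v : ℝ) : wt v = Real.exp (-(9 / 4) * el v) := by
  rw [wt, Real.rpow_def_of_pos (by positivity), el]
  congr 1
  ring

theorem wt_cont : Continuous wt := by
  have : wt = fun v => Real.exp (-(9 / 4) * el v) := funext wt_eq
  rw [this]
  exact Real.continuous_exp.comp (continuous_const.mul el_cont)

theorem wt_le (x v w : ℝ) (h : |v - x| ≤ |w|) : wt x ≤ 4 * wt v * (1 + w ^ 2) ^ 2 := by
  have h1 : (v - x) ^ 2 ≤ w ^ 2 := sq_le_sq.mpr h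
  have h2 : 1 + v ^ 2 ≤ 2 * ((1 + x ^ 2) * (1 + w ^ 2)) := by
    nlinarith [sq_nonneg (x + (x - v)), sq_nonneg x, mul_nonneg (sq_nonneg x) (sq_nonneg w)]
  have hx : (0 : ℝ) < 1 + x ^ 2 := by positivity
  have hv : (0 : ℝ) < 1 + v ^ 2 := by positivity
  have hw : (1 : ℝ) ≤ 1 + w ^ 2 := by nlinarith [sq_nonneg w]
  have h3 : (1 + v ^ 2) ^ (9 / 8 : ℝ) ≤ (2 * ((1 + x ^ 2) * (1 + w ^ 2))) ^ (9 / 8 : ℝ) :=
    Real.rpow_le_rpow hv.le h2 (by norm_num)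
  rw [Real.mul_rpow (by norm_num) (by positivity), Real.mul_rpow hx.le (by positivity)] at h3
  have h4 : (2 : ℝ) ^ (9 / 8 : ℝ) ≤ 4 := by
    calc (2 : ℝ) ^ (9 / 8 : ℝ) ≤ (2 : ℝ) ^ (2 : ℝ) :=
          Real.rpow_le_rpow_of_exponent_le (by norm_num) (by norm_num)
      _ = 4 := by norm_num
  have h5 : (1 + w ^ 2) ^ (9 / 8 : ℝ) ≤ (1 + w ^ 2) ^ 2 := by
    calc (1 + w ^ 2) ^ (9 / 8 : ℝ) ≤ (1 + w ^ 2) ^ (2 : ℝ) :=
          Real.rpow_le_rpow_of_exponent_le hw (by norm_num)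
      _ = (1 + w ^ 2) ^ 2 := by norm_num
  have hX : 0 < (1 + x ^ 2) ^ (9 / 8 : ℝ) := Real.rpow_pos_of_pos hx _
  have hV : 0 < (1 + v ^ 2) ^ (9 / 8 : ℝ) := Real.rpow_pos_of_pos hv _
  have h6 : (1 + v ^ 2) ^ (9 / 8 : ℝ) ≤ 4 * ((1 + x ^ 2) ^ (9 / 8 : ℝ) * (1 + w ^ 2) ^ 2) := by
    refine h3.trans ?_
    gcongr
  rw [wt, wt, Real.rpow_neg hx.le, Real.rpow_neg hv.le]
  rw [inv_le_iff_one_le_mul₀ hX]
  have h7 : 4 * ((1 + v ^ 2) ^ (9 / 8 : ℝ))⁻¹ * (1 + w ^ 2) ^ 2 * (1 + x ^ 2) ^ (9 / 8 : ℝ) =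
      (4 * ((1 + x ^ 2) ^ (9 / 8 : ℝ) * (1 + w ^ 2) ^ 2)) / (1 + v ^ 2) ^ (9 / 8 : ℝ) := by
    rw [div_eq_mul_inv]
    ring
  rw [h7, le_div_iff₀ hV, one_mul]
  exact h6

/-- the model -/
noncomputable def GG (z : ℂ) (i : ℕ) (v : ℝ) : ℂ := (v : ℂ) * hh z i (el v)

/-- its derivative -/
noncomputable def GGd (z : ℂ) (i : ℕ) (v : ℝ) : ℂ :=
  hh z i (el v) + (v : ℂ) * ((v / (1 + v ^ 2) : ℝ) • hhd z i (el v))

theorem GG_deriv (z : ℂ) (i : ℕ) (v : ℝ) : HasDerivAt (GG z i) (GGd z i v) v := by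
  have h1 : HasDerivAt (fun s : ℝ => (s : ℂ)) 1 v := by
    simpa using (hasDerivAt_id v).ofReal_comp
  have h2 : HasDerivAt (fun v => hh z i (el v)) ((v / (1 + v ^ 2) : ℝ) • hhd z i (el v)) v :=
    HasDerivAt.scomp v (hh_deriv z i (el v)) (el_deriv v)
  have h3 := h1.mul h2
  refine h3.congr_deriv ?_
  simp only [GGd]
  ring

theorem GG_cont (z : ℂ) (i : ℕ) : Continuous (GG z i) := by
  unfold GG
  exact (continuous_ofReal).mul ((hh_cont z i).comp el_cont)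

theorem GG_odd (z : ℂ) (i : ℕ) (v : ℝ) : GG z i (-v) = -GG z i v := by
  unfold GG
  rw [el_neg]
  push_cast
  ring

theorem GGd_bound (z : ℂ) (hz : z.re = 5 / 2) (i : ℕ) : ∃ C : ℝ, 0 < C ∧ ∀ v : ℝ,
    ‖GGd z i v‖ ≤ C * wt v := by
  obtain ⟨C1, hC1, h1⟩ := hh_bound z hz i
  obtain ⟨C2, hC2, h2⟩ := hhd_bound z hz i
  refine ⟨C1 + C2, by positivity, fun v => ?_⟩
  have a1 := h1 _ (el_nonneg v)
  have a2 := h2 _ (el_nonneg v)
  rw [← wt_eq] at a1 a2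
  have h3 : ‖(v : ℂ) * ((v / (1 + v ^ 2) : ℝ) • hhd z i (el v))‖ ≤ ‖hhd z i (el v)‖ := by
    rw [norm_mul, norm_smul, Complex.norm_real, ← mul_assoc, ← norm_mul]
    have : ‖v * (v / (1 + v ^ 2))‖ ≤ 1 := by
      rw [Real.norm_eq_abs, abs_of_nonneg (by
        rw [← mul_div_assoc]
        exact div_nonneg (mul_self_nonneg v) (by positivity)), ← mul_div_assoc,
        div_le_one (by positivity)]
      nlinarith
    calc _ ≤ 1 * ‖hhd z i (el v)‖ := by gcongr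
      _ = _ := one_mul _
  calc ‖GGd z i v‖ ≤ ‖hh z i (el v)‖ + ‖(v : ℂ) * ((v / (1 + v ^ 2) : ℝ) • hhd z i (el v))‖ :=
        norm_add_le _ _
    _ ≤ C1 * wt v + C2 * wt v := add_le_add a1 (h3.trans a2)
    _ = (C1 + C2) * wt v := by ring

/-- the model decays like `(1+v^2)^{-5/8}` -/
theorem GG_bound (z : ℂ) (hz : z.re = 5 / 2) (i : ℕ) : ∃ C : ℝ, 0 < C ∧ ∀ v : ℝ,
    ‖GG z i v‖ ≤ C * (1 + v ^ 2) ^ (-(5 / 8) : ℝ) := by
  obtain ⟨C1, hC1, h1⟩ := hh_bound z hz i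
  refine ⟨C1, hC1, fun v => ?_⟩
  have a1 := h1 _ (el_nonneg v)
  have h2 : |v| ≤ Real.exp (el v) := by
    have h3 : Real.exp (el v) ^ 2 = 1 + v ^ 2 := by
      rw [← Real.exp_nat_mul, el]
      push_cast
      rw [mul_div_cancel₀ _ (by norm_num : (2 : ℝ) ≠ 0), Real.exp_log (by positivity)]
    apply abs_le_of_sq_le_sq _ (Real.exp_pos _).le |> fun h => h
    rw [h3]
    linarith
  have h4 : (1 + v ^ 2) ^ (-(5 / 8) : ℝ) = Real.exp (el v) * Real.exp (-(9 / 4) * el v) := by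
    rw [Real.rpow_def_of_pos (by positivity), ← Real.exp_add, el]
    congr 1
    ring
  rw [h4, GG, norm_mul, Complex.norm_real, Real.norm_eq_abs]
  calc |v| * ‖hh z i (el v)‖ ≤ Real.exp (el v) * (C1 * Real.exp (-(9 / 4) * el v)) := by
        gcongr
    _ = _ := by ring

theorem GG_sub (z : ℂ) (hz : z.re = 5 / 2) (i : ℕ) : ∃ C : ℝ, 0 < C ∧ ∀ v w : ℝ,
    ‖GG z i (v - w) - GG z i v‖ ≤ C * wt v * (|w| * (1 + w ^ 2) ^ 2) := by
  obtain ⟨C, hC, h⟩ := GGd_bound z hz i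
  refine ⟨4 * C, by positivity, fun v w => ?_⟩
  have h1 := (convex_uIcc v (v - w)).norm_image_sub_le_of_norm_hasDerivWithin_le
    (f := GG z i) (f' := GGd z i) (C := C * (4 * wt v * (1 + w ^ 2) ^ 2))
    (fun x _ => (GG_deriv z i x).hasDerivWithinAt) (fun x hx => by
      refine (h x).trans ?_
      have h2 : |v - x| ≤ |w| := by
        have := abs_sub_left_of_mem_uIcc hx
        rw [abs_sub_comm] at this
        simpa using this
      have := wt_le x v w h2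
      gcongr) left_mem_uIcc right_mem_uIcc
  refine h1.trans (le_of_eq ?_)
  rw [show v - w - v = -w by ring, norm_neg, Real.norm_eq_abs]
  ring

end Pool.Agent.Q258.BD
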