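import Pool.Agent.Q286.BD.Spec2

/-!
# A band limited even Schwartz function and its derivative
-/

set_option autoImplicit false

namespace Pool.Agent.Q258.BD

open Complex MeasureTheory Filter Topology Set SchwartzMap
open scoped FourierTransform

/-- odd integrable continuous functions with spectrum in `[-1, 1]` -/
structure Band (F : ℝ → ℂ) : Prop where
  cont : Continuous F
  int : Integrable F
  odd : ∀ y, F (-y) = -F y
  spec : ∀ ξ : ℝ, 1 ≤ |ξ| → 𝓕 F ξ = 0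

theorem exists_psi : ∃ Ψ : 𝓢(ℝ, ℂ), (∀ x, Ψ (-x) = Ψ x) ∧ Ψ 0 ≠ 0 ∧
    (∀ ξ : ℝ, 1 ≤ |ξ| → 𝓕 (Ψ : ℝ → ℂ) ξ = 0) ∧ ∫ x, Ψ x = 1 := by
  let b : ContDiffBump (0 : ℝ) := ⟨1 / 4, 1 / 2, by norm_num, by norm_num⟩
  have h1 : HasCompactSupport (fun x : ℝ => ((b x : ℝ) : ℂ)) :=
    b.hasCompactSupport.comp_left (g := fun x : ℝ => (x : ℂ)) (by simp)
  have h2 : ContDiff ℝ (⊤ : ℕ∞) (fun x : ℝ => ((b x : ℝ) : ℂ)) :=
    Complex.ofRealCLM.contDiff.comp b.contDiff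
  set ψ : 𝓢(ℝ, ℂ) := h1.toSchwartzMap h2 with hψ
  have hψa : ∀ x, ψ x = ((b x : ℝ) : ℂ) := fun x => rfl
  set Ψ : 𝓢(ℝ, ℂ) := 𝓕⁻ ψ with hΨ
  have e1 : 𝓕 (Ψ : ℝ → ℂ) = ψ := by
    rw [← SchwartzMap.fourier_coe, hΨ, FourierTransform.fourier_fourierInv_eq]
  have e2 : ∀ x, Ψ x = ∫ v : ℝ, cexp (2 * Real.pi * v * x * I) * ψ v := by
    intro x
    rw [hΨ, SchwartzMap.fourierInv_coe, Real.fourierInv_eq']
    congr 1
    funext v
    simp only [smul_eq_mul]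
    congr 2
    simp
    ring
  refine ⟨Ψ, ?_, ?_, ?_, ?_⟩
  · intro x
    rw [e2, e2]
    rw [← integral_neg_eq_self]
    congr 1
    funext v
    rw [hψa, hψa, b.neg]
    congr 2
    push_cast
    ring
  · rw [e2]
    simp only [ofReal_zero, mul_zero, zero_mul, Complex.exp_zero, one_mul, hψa]
    have h3 := integral_ofReal (μ := volume) (f := fun v : ℝ => b v) (𝕜 := ℂ)
    have h4 : ∫ v : ℝ, ((b v : ℝ) : ℂ) = ((∫ v : ℝ, b v : ℝ) : ℂ) := h3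
    rw [h4]
    have := b.integral_pos (μ := volume)
    exact_mod_cast this.ne'
  · intro ξ hξ
    rw [e1, hψa, b.zero_of_le_dist]
    · simp
    · rw [Real.dist_eq, sub_zero]
      show (1 / 2 : ℝ) ≤ |ξ|
      linarith
  · have h3 := congrFun e1 0
    rw [Real.fourier_eq] at h3
    simp only [inner_zero_right, neg_zero, AddChar.map_zero_eq_one, one_smul] at h3
    rw [h3, hψa, b.eventuallyEq_one.eq_of_nhds]
    simp

/-- decay of a Schwartz function -/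
theorem schwartz_decay (S : 𝓢(ℝ, ℂ)) : ∃ C : ℝ, 0 < C ∧ ∀ v, ‖S v‖ ≤ C * (1 + v ^ 2) ^ (-2 : ℝ) := by
  obtain ⟨C0, hC0, h0⟩ := S.decay 0 0
  obtain ⟨C4, hC4, h4⟩ := S.decay 4 0
  refine ⟨2 * (C0 + C4), by positivity, fun v => ?_⟩
  have a0 := h0 v
  have a4 := h4 v
  simp only [norm_iteratedFDeriv_zero, pow_zero, one_mul] at a0 a4
  rw [Real.norm_eq_abs] at a4
  have h5 : |v| ^ 4 = v ^ 4 := by
    rw [show (4 : ℕ) = 2 * 2 by norm_num, pow_mul, sq_abs, ← pow_mul]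
  rw [h5] at a4
  have hJ : 0 < 1 + v ^ 2 := by positivity
  rw [Real.rpow_neg hJ.le, show (2 : ℝ) = ((2 : ℕ) : ℝ) by norm_num, Real.rpow_natCast,
    ← div_eq_mul_inv, le_div_iff₀ (by positivity)]
  push_cast
  nlinarith [norm_nonneg (S v), sq_nonneg (v ^ 2 - 1), mul_nonneg (norm_nonneg (S v)) (sq_nonneg (v ^ 2 - 1))]

/-- the derivative of the even function -/
theorem exists_phi : ∃ (Ψ Φ : 𝓢(ℝ, ℂ)), (∀ x, Ψ (-x) = Ψ x) ∧
    (∀ ξ : ℝ, 1 ≤ |ξ| → 𝓕 (Ψ : ℝ → ℂ) ξ = 0) ∧ ∫ x, Ψ x = 1 ∧ Band Φ ∧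
    ∫ x in Ioi (0 : ℝ), Φ x ≠ 0 := by
  obtain ⟨Ψ, hev, h0, hspec, hint⟩ := exists_psi
  set Φ : 𝓢(ℝ, ℂ) := SchwartzMap.derivCLM ℝ ℂ Ψ with hΦ
  have hd : ∀ x, Φ x = deriv Ψ x := fun x => SchwartzMap.derivCLM_apply ℝ Ψ x
  have hderiv : ∀ x, HasDerivAt Ψ (Φ x) x := by
    intro x
    rw [hd]
    exact (Ψ.differentiable x).hasDerivAt
  refine ⟨Ψ, Φ, hev, hspec, hint, ⟨Φ.continuous, Φ.integrable, ?_, ?_⟩, ?_⟩
  · intro y
    have h1 : HasDerivAt (fun x => Ψ (-x)) (-(Φ (-y))) y := by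
      have h := HasDerivAt.scomp y (hderiv (-y)) (hasDerivAt_neg y)
      have e : (-1 : ℝ) • Φ (-y) = -(Φ (-y)) := by simp
      rw [e] at h
      exact h
    have h2 : HasDerivAt (fun x => Ψ (-x)) (Φ y) y := by
      have : (fun x => Ψ (-x)) = Ψ := funext hev
      rw [this]
      exact hderiv y
    have := h1.unique h2
    rw [← this, neg_neg]
  · intro ξ hξ
    have h1 : (Φ : ℝ → ℂ) = deriv Ψ := funext hd
    rw [h1, Real.fourier_deriv Ψ.integrable Ψ.differentiable (h1 ▸ Φ.integrable)]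
    show (2 * Real.pi * I * (ξ : ℂ)) • 𝓕 (Ψ : ℝ → ℂ) ξ = 0
    rw [hspec ξ hξ, smul_zero]
  · have h1 : Tendsto Ψ atTop (𝓝 0) := by
      obtain ⟨C, hC, hb⟩ := schwartz_decay Ψ
      rw [tendsto_zero_iff_norm_tendsto_zero]
      refine squeeze_zero (fun _ => norm_nonneg _) hb ?_
      have : Tendsto (fun v : ℝ => (1 + v ^ 2) ^ (-2 : ℝ)) atTop (𝓝 0) := by
        refine (tendsto_rpow_neg_atTop (y := 2) (by norm_num)).comp ?_
        exact tendsto_atTop_add_const_left _ _ (tendsto_pow_atTop (by norm_num))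
      simpa using this.const_mul C
    have h2 := integral_Ioi_of_hasDerivAt_of_tendsto (a := 0) (f := Ψ) (f' := Φ)
      Ψ.continuous.continuousWithinAt (fun x _ => hderiv x) Φ.integrable.integrableOn h1
    rw [h2, zero_sub, neg_ne_zero]
    exact h0

end Pool.Agent.Q258.BD
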